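import Pool.Agent.H97.LA.Targets
import Pool.Agent.H60.SYM.All

/-!
Circuits with linear algebra gates: module MATY (existence of the system, after MATX).
-/

set_option autoImplicit false

namespace Pool.Agent.H48.LA

open Finset Pool.Agent.H60.SYM Pool.Agent.H42.XS Pool.Agent.H97.LA

/-- the union bound for two kinds of events -/
lemma union_two {M n d ρ : ℕ} (Y : Finset (Fin M → ZMod 2)) (B : Finset (Fin n → ZMod 2))
    (S : Finset (Fin ρ → Fin M → ZMod 2)) {c : ℝ}
    (hc : ∀ y ∈ Y, ∀ z ∈ B,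
      (Nat.card {e : Fin M → Fin (d + 1) → Fin n // Partite e ∧ comb e y = z} : ℝ) ≤
        Nat.card {e : Fin M → Fin (d + 1) → Fin n // Partite e} * c)
    (hS : ∀ T ∈ S, ∀ z : Fin ρ → Fin n → ZMod 2,
      (Nat.card {e : Fin M → Fin (d + 1) → Fin n // Partite e ∧ ∀ j, comb e (T j) = z j} : ℝ) ≤
        Nat.card {e : Fin M → Fin (d + 1) → Fin n // Partite e} * c ^ ρ)
    (hn : d + 1 ≤ n)
    (hlt : (Y.card : ℝ) * B.card * c + S.card * (B.card * (B.card : ℝ) ^ ρ) * c ^ ρ < 1) :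
    ∃ e : Fin M → Fin (d + 1) → Fin n, Partite e ∧ (∀ y ∈ Y, comb e y ∉ B) ∧
      ∀ T ∈ S, ∀ u ∈ B, ∃ j, u + comb e (T j) ∉ B := by
  classical
  by_contra hcon
  push Not at hcon
  have hpos : (0 : ℝ) < Nat.card {e : Fin M → Fin (d + 1) → Fin n // Partite e} := by
    exact_mod_cast Pool.Agent.H27.SYM.partite_pos M n d hn
  have h1 : (univ.filter fun e : Fin M → Fin (d + 1) → Fin n => Partite e) ⊆
      (Y.biUnion fun y => B.biUnion fun z =>
        univ.filter fun e : Fin M → Fin (d + 1) → Fin n => Partite e ∧ comb e y = z) ∪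
      S.biUnion fun T => B.biUnion fun u => (Fintype.piFinset fun _ : Fin ρ => B).biUnion fun z =>
        univ.filter fun e : Fin M → Fin (d + 1) → Fin n =>
          Partite e ∧ ∀ j, comb e (T j) = (fun j => z j - u) j := by
    intro e he
    rw [mem_filter] at he
    rw [mem_union]
    by_cases h : ∀ y ∈ Y, comb e y ∉ B
    · right
      obtain ⟨T, hT, u, hu, hj⟩ := hcon e he.2 h
      simp only [mem_biUnion, mem_filter, Fintype.mem_piFinset]
      exact ⟨T, hT, u, hu, fun j => u + comb e (T j), hj, mem_univ _, he.2, fun j => by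
        simp⟩
    · left
      push Not at h
      obtain ⟨y, hy, hz⟩ := h
      simp only [mem_biUnion, mem_filter]
      exact ⟨y, hy, comb e y, hz, mem_univ _, he.2, rfl⟩
  have h2 : (Nat.card {e : Fin M → Fin (d + 1) → Fin n // Partite e} : ℝ) ≤
      (∑ y ∈ Y, ∑ z ∈ B,
        (Nat.card {e : Fin M → Fin (d + 1) → Fin n // Partite e ∧ comb e y = z} : ℝ)) +
      ∑ T ∈ S, ∑ u ∈ B, ∑ z ∈ Fintype.piFinset fun _ : Fin ρ => B,
        (Nat.card {e : Fin M → Fin (d + 1) → Fin n //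
          Partite e ∧ ∀ j, comb e (T j) = (fun j => z j - u) j} : ℝ) := by
    have h3 := (card_le_card h1).trans ((card_union_le _ _).trans (add_le_add
      (card_biUnion_le.trans (sum_le_sum fun y _ => card_biUnion_le))
      (card_biUnion_le.trans (sum_le_sum fun T _ => card_biUnion_le.trans
        (sum_le_sum fun u _ => card_biUnion_le)))))
    rw [Nat.card_eq_fintype_card, Fintype.card_subtype]
    refine (Nat.cast_le.2 h3).trans (le_of_eq ?_)
    rw [Nat.cast_add, Nat.cast_sum, Nat.cast_sum]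
    congr 1
    · refine sum_congr rfl fun y _ => ?_
      rw [Nat.cast_sum]
      refine sum_congr rfl fun z _ => ?_
      rw [Nat.card_eq_fintype_card, Fintype.card_subtype]
    · refine sum_congr rfl fun T _ => ?_
      rw [Nat.cast_sum]
      refine sum_congr rfl fun u _ => ?_
      rw [Nat.cast_sum]
      refine sum_congr rfl fun z _ => ?_
      rw [Nat.card_eq_fintype_card, Fintype.card_subtype]
  obtain ⟨P, hP⟩ : ∃ P : ℝ, P = Nat.card {e : Fin M → Fin (d + 1) → Fin n // Partite e} :=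
    ⟨_, rfl⟩
  rw [← hP] at h2 hpos
  have h5 : (∑ y ∈ Y, ∑ z ∈ B,
        (Nat.card {e : Fin M → Fin (d + 1) → Fin n // Partite e ∧ comb e y = z} : ℝ)) ≤
      ∑ y ∈ Y, ∑ z ∈ B, (P * c : ℝ) :=
    sum_le_sum fun y hy => sum_le_sum fun z hz => hP ▸ hc y hy z hz
  have h6 : (∑ T ∈ S, ∑ u ∈ B, ∑ z ∈ Fintype.piFinset fun _ : Fin ρ => B,
        (Nat.card {e : Fin M → Fin (d + 1) → Fin n //
          Partite e ∧ ∀ j, comb e (T j) = (fun j => z j - u) j} : ℝ)) ≤
      ∑ T ∈ S, ∑ u ∈ B, ∑ z ∈ Fintype.piFinset fun _ : Fin ρ => B, (P * c ^ ρ : ℝ) :=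
    sum_le_sum fun T hT => sum_le_sum fun u _ => sum_le_sum fun z _ =>
      hP ▸ hS T hT (fun j => z j - u)
  rw [sum_const, sum_const, nsmul_eq_mul, nsmul_eq_mul] at h5
  rw [sum_const, sum_const, sum_const, nsmul_eq_mul, nsmul_eq_mul, nsmul_eq_mul,
    Fintype.card_piFinset_const, Nat.cast_pow] at h6
  have h7 := h2.trans (add_le_add h5 h6)
  have h8 : P * ((Y.card : ℝ) * B.card * c + S.card * (B.card * (B.card : ℝ) ^ ρ) * c ^ ρ) <
      P * 1 := mul_lt_mul_of_pos_left hlt hpos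
  nlinarith

theorem pf_MATY (hFOUJ : T_FOUJ) : T_MATY := by
  classical
  have hFOU : T_FOU := Pool.Agent.H27.SYM.fou Pool.Agent.H19.SYM.bin
  intro d K ρ α η A hK hρ hα0 hη hα4 hA hlt hlt2
  have hK0 : (0 : ℝ) < K := by
    have : 0 < K := hK
    exact_mod_cast this
  have hK1 : (1 : ℝ) ≤ K := by exact_mod_cast hK
  have hρ0 : (0 : ℝ) < ρ := by
    have : 0 < ρ := hρ
    exact_mod_cast this
  obtain ⟨a, ha⟩ : ∃ a : ℝ, a = 4 * ρ * α := ⟨_, rfl⟩
  rw [← ha] at hα4 hA
  have ha0 : 0 < a := by rw [ha]; positivity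
  obtain ⟨q, hq⟩ : ∃ q : ℝ, q = a / K := ⟨_, rfl⟩
  have hq0 : 0 < q := by rw [hq]; positivity
  have hq1 : q ≤ 1 := by
    rw [hq, div_le_one hK0]
    linarith
  obtain ⟨ζ, hζ⟩ : ∃ ζ : ℝ, ζ = Real.exp (-(9 / 5 * (α * (d + 1)))) := ⟨_, rfl⟩
  have hζ0 : 0 < ζ := by rw [hζ]; exact Real.exp_pos _
  have hlog : a * Real.log (Real.exp 1 * K / a) = a - a * Real.log q := by
    have h1 : Real.exp 1 * K / a = Real.exp 1 * q⁻¹ := by
      rw [hq]
      field_simp
    rw [h1, Real.log_mul (Real.exp_pos 1).ne' (inv_ne_zero hq0.ne'), Real.log_exp, Real.log_inv]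
    ring
  rw [hlog, ← hζ] at hA
  obtain ⟨γ, hγ⟩ : ∃ γ : ℝ, γ = η * Real.log 2 - A := ⟨_, rfl⟩
  rw [← hγ] at hlt2
  have hγ0 : 0 < γ := by
    rw [hγ]
    linarith
  obtain ⟨δ, hδ⟩ : ∃ δ : ℝ, δ = ρ * γ - Real.log 2 := ⟨_, rfl⟩
  have hδ0 : 0 < δ := by
    rw [hδ]
    linarith
  refine ⟨max (d + 1) (max ⌈(10 + 9 * α * (d + 1)) / α⌉₊
    (max ⌈((d : ℝ) + 3) / γ⌉₊ ⌈(((d : ℝ) + 1) * ρ + 2) / δ⌉₊)), fun n hn B hB => ?_⟩
  have hdn : d + 1 ≤ n := (le_max_left _ _).trans hn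
  have hn' := (le_max_right _ _).trans hn
  have hn2 : 10 + 9 * α * (d + 1) ≤ α * n := by
    have h1 : (10 + 9 * α * ((d : ℝ) + 1)) / α ≤ n :=
      (Nat.le_ceil _).trans (Nat.cast_le.2 ((le_max_left _ _).trans hn'))
    rw [div_le_iff₀ hα0] at h1
    linarith
  have hn'' := (le_max_right _ _).trans hn'
  have hn3 : (d : ℝ) + 3 ≤ γ * n := by
    have h1 : ((d : ℝ) + 3) / γ ≤ n :=
      (Nat.le_ceil _).trans (Nat.cast_le.2 ((le_max_left _ _).trans hn''))
    rw [div_le_iff₀ hγ0] at h1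
    linarith
  have hn4 : ((d : ℝ) + 1) * ρ + 2 ≤ δ * n := by
    have h1 : (((d : ℝ) + 1) * ρ + 2) / δ ≤ n :=
      (Nat.le_ceil _).trans (Nat.cast_le.2 ((le_max_right _ _).trans hn''))
    rw [div_le_iff₀ hδ0] at h1
    linarith
  have hn1 : 0 < n := by omega
  have hn0 : (0 : ℝ) < n := by exact_mod_cast hn1
  obtain ⟨s₀, hs₀⟩ : ∃ s₀ : ℕ, s₀ = ⌊α * n⌋₊ := ⟨_, rfl⟩
  rw [← hs₀]
  have hs1 : (s₀ : ℝ) ≤ α * n := by
    rw [hs₀]
    exact Nat.floor_le (by positivity)
  have hs2 : α * n - 1 ≤ s₀ := by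
    rw [hs₀]
    have := Nat.lt_floor_add_one (α * n)
    linarith
  have hdd : (0 : ℝ) < (d : ℝ) + 1 := by positivity
  -- the estimate for one part
  have hone : ∀ w : ℕ, s₀ ≤ w →
      (1 + Real.exp (-(2 * (w : ℝ) * (d + 1) / (n + d + 1)))) ^ n ≤ Real.exp (ζ * n) := by
    intro w hw
    have hw' : (s₀ : ℝ) ≤ w := by exact_mod_cast hw
    have h1 : 9 / 5 * (α * ((d : ℝ) + 1)) ≤ 2 * (w : ℝ) * (d + 1) / (n + d + 1) := by
      rw [le_div_iff₀ (by positivity)]
      calc 9 / 5 * (α * ((d : ℝ) + 1)) * (n + d + 1)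
          = (9 / 5 * (α * n) + 9 / 5 * (α * (d + 1))) * (d + 1) := by ring
        _ ≤ (2 * (w : ℝ)) * (d + 1) := by
            refine mul_le_mul_of_nonneg_right ?_ hdd.le
            linarith
    have h3 : Real.exp (-(2 * (w : ℝ) * (d + 1) / (n + d + 1))) ≤ ζ := by
      rw [hζ]
      exact Real.exp_le_exp.2 (neg_le_neg h1)
    have h4 := Real.add_one_le_exp (Real.exp (-(2 * (w : ℝ) * (d + 1) / (n + d + 1)) : ℝ))
    calc (1 + Real.exp (-(2 * (w : ℝ) * (d + 1) / (n + d + 1)))) ^ n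
        ≤ (Real.exp (Real.exp (-(2 * (w : ℝ) * (d + 1) / (n + d + 1))))) ^ n := by
          refine pow_le_pow_left₀ (by positivity) ?_ n
          linarith
      _ ≤ (Real.exp ζ) ^ n :=
          pow_le_pow_left₀ (Real.exp_pos _).le (Real.exp_le_exp.2 h3) n
      _ = Real.exp (ζ * n) := by
          rw [← Real.exp_nat_mul]
          congr 1
          ring
  -- vectors of small weight
  obtain ⟨Q, hQ⟩ : ∃ Q : Finset (Fin (K * n) → ZMod 2), Q = univ.filter fun y =>
    wt y ≤ 4 * ρ * s₀ := ⟨_, rfl⟩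
  have hQc : (Q.card : ℝ) ≤ Real.exp ((a - a * Real.log q) * n) := by
    have h1 := Pool.Agent.H27.SYM.card_small hq0 hq1 Q (s := a * n) (fun y hy => by
      rw [hQ, mem_filter] at hy
      have h2 : (wt y : ℝ) ≤ ((4 * ρ * s₀ : ℕ) : ℝ) := by exact_mod_cast hy.2
      push_cast at h2
      refine h2.trans ?_
      rw [ha]
      calc (4 : ℝ) * ρ * s₀ ≤ 4 * ρ * (α * n) := mul_le_mul_of_nonneg_left hs1 (by positivity)
        _ = 4 * ρ * α * n := by ring)
    have h2 : q * (K * n : ℕ) = a * n := by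
      rw [hq]
      push_cast
      field_simp
    rw [h2] at h1
    have h3 : Real.exp ((a - a * Real.log q) * n) =
        Real.exp (a * n) * Real.exp (-(a * n * Real.log q)) := by
      rw [← Real.exp_add]
      congr 1
      ring
    have h4 : (Q.card : ℝ) = (Q.card : ℝ) * Real.exp (a * n * Real.log q) *
        Real.exp (-(a * n * Real.log q)) := by
      rw [mul_assoc, ← Real.exp_add, add_neg_cancel, Real.exp_zero, mul_one]
    rw [h3, h4]
    exact mul_le_mul_of_nonneg_right h1 (Real.exp_pos _).le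
  have hBc : (B.card : ℝ) ≤ 2 ^ n * Real.exp (-(η * Real.log 2 * n)) := by
    refine hB.trans (le_of_eq ?_)
    rw [Real.rpow_def_of_pos (by norm_num), ← Real.rpow_natCast 2 n,
      Real.rpow_def_of_pos (by norm_num), ← Real.exp_add]
    congr 1
    ring
  have hBn : (B.card : ℝ) ≤ Real.exp (Real.log 2 * n) := by
    refine hB.trans ?_
    rw [Real.rpow_def_of_pos (by norm_num)]
    refine Real.exp_le_exp.2 (mul_le_mul_of_nonneg_left ?_ (Real.log_nonneg (by norm_num)))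
    nlinarith
  obtain ⟨c, hc⟩ : ∃ c : ℝ, c = 2 ^ (d + 1) / 2 ^ n * Real.exp (ζ * n) := ⟨_, rfl⟩
  have hc0 : 0 < c := by rw [hc]; positivity
  have h2e : (2 : ℝ) ≤ Real.exp 1 := by
    have := Real.add_one_le_exp (1 : ℝ)
    linarith
  obtain ⟨X, hX⟩ : ∃ X : ℝ, X = Q.card * B.card * c := ⟨_, rfl⟩
  have hX0 : 0 ≤ X := by rw [hX]; positivity
  have hXle : X ≤ Real.exp (d + 1 - γ * n) := by
    have h5 : (2 : ℝ) ^ (d + 1) ≤ Real.exp (d + 1) := by
      calc (2 : ℝ) ^ (d + 1) ≤ Real.exp 1 ^ (d + 1) :=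
            pow_le_pow_left₀ (by norm_num) h2e _
        _ = Real.exp (d + 1) := by
          rw [← Real.exp_nat_mul]
          push_cast
          ring_nf
    rw [hX, hc]
    calc (Q.card : ℝ) * B.card * (2 ^ (d + 1) / 2 ^ n * Real.exp (ζ * n))
        ≤ Real.exp ((a - a * Real.log q) * n) * (2 ^ n * Real.exp (-(η * Real.log 2 * n))) *
          (2 ^ (d + 1) / 2 ^ n * Real.exp (ζ * n)) := by
          refine mul_le_mul_of_nonneg_right ?_ (by positivity)
          exact mul_le_mul hQc hBc (Nat.cast_nonneg _) (Real.exp_pos _).le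
      _ = 2 ^ (d + 1) * (Real.exp ((a - a * Real.log q) * n) *
          Real.exp (-(η * Real.log 2 * n)) * Real.exp (ζ * n)) := by
          have : (2 : ℝ) ^ n ≠ 0 := by positivity
          field_simp
      _ = 2 ^ (d + 1) * Real.exp (-(γ * n)) := by
          rw [← Real.exp_add, ← Real.exp_add, hγ, hA]
          congr 2
          ring
      _ ≤ Real.exp (d + 1) * Real.exp (-(γ * n)) :=
          mul_le_mul_of_nonneg_right h5 (Real.exp_pos _).le
      _ = Real.exp (d + 1 - γ * n) := by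
          rw [← Real.exp_add]
          congr 1
  have he2 : Real.exp (-2) ≤ 1 / 3 := by
    rw [Real.exp_neg, ← one_div]
    refine one_div_le_one_div_of_le (by norm_num) ?_
    have := Real.add_one_le_exp (2 : ℝ)
    linarith
  have hX2 : X ≤ 1 / 3 := hXle.trans ((Real.exp_le_exp.2 (by linarith)).trans he2)
  have hX3 : (B.card : ℝ) * X ^ ρ ≤ 1 / 3 := by
    have h1 : X ^ ρ ≤ Real.exp (ρ * (d + 1 - γ * n)) := by
      rw [Real.exp_nat_mul]
      exact pow_le_pow_left₀ hX0 hXle ρ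
    calc (B.card : ℝ) * X ^ ρ ≤ Real.exp (Real.log 2 * n) * Real.exp (ρ * (d + 1 - γ * n)) :=
          mul_le_mul hBn h1 (pow_nonneg hX0 _) (Real.exp_pos _).le
      _ = Real.exp (((d : ℝ) + 1) * ρ - δ * n) := by
          rw [← Real.exp_add, hδ]
          congr 1
          ring
      _ ≤ Real.exp (-2) := Real.exp_le_exp.2 (by linarith)
      _ ≤ 1 / 3 := he2
  obtain ⟨Y, hY⟩ : ∃ Y : Finset (Fin (K * n) → ZMod 2), Y = Q.filter fun y => s₀ ≤ wt y :=
    ⟨_, rfl⟩
  obtain ⟨S, hS⟩ : ∃ S : Finset (Fin ρ → Fin (K * n) → ZMod 2), S =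
    (Fintype.piFinset fun _ : Fin ρ => Q).filter fun T => ∀ j, s₀ ≤ nw T j := ⟨_, rfl⟩
  have hYc : (Y.card : ℝ) ≤ Q.card := by
    rw [hY]
    exact_mod_cast card_filter_le _ _
  have hSc : (S.card : ℝ) ≤ (Q.card : ℝ) ^ ρ := by
    rw [hS]
    have h1 := card_filter_le (Fintype.piFinset fun _ : Fin ρ => Q)
      (fun T : Fin ρ → Fin (K * n) → ZMod 2 => ∀ j, s₀ ≤ nw T j)
    rw [Fintype.card_piFinset_const] at h1
    exact_mod_cast h1
  obtain ⟨e, he, heB, heT⟩ := union_two (d := d) Y B S (c := c) (fun y hy z _ => by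
      refine (hFOU n d (K * n) y z hdn).trans ?_
      rw [hc]
      refine mul_le_mul_of_nonneg_left ?_ (Nat.cast_nonneg _)
      refine mul_le_mul_of_nonneg_left ?_ (by positivity)
      rw [hY, mem_filter] at hy
      exact hone _ hy.2) (fun T hT z => by
      rw [hS, mem_filter] at hT
      refine (hFOUJ n d (K * n) ρ s₀ T z hdn hT.2).trans ?_
      refine mul_le_mul_of_nonneg_left ?_ (Nat.cast_nonneg _)
      refine pow_le_pow_left₀ (by positivity) ?_ ρ
      rw [hc]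
      refine mul_le_mul_of_nonneg_left ?_ (by positivity)
      exact hone s₀ le_rfl) hdn (by
      have h1 : (Y.card : ℝ) * B.card * c ≤ X := by
        rw [hX]
        exact mul_le_mul_of_nonneg_right
          (mul_le_mul_of_nonneg_right hYc (Nat.cast_nonneg _)) hc0.le
      have h2 : (S.card : ℝ) * (B.card * (B.card : ℝ) ^ ρ) * c ^ ρ ≤ B.card * X ^ ρ := by
        calc (S.card : ℝ) * (B.card * (B.card : ℝ) ^ ρ) * c ^ ρ
            ≤ (Q.card : ℝ) ^ ρ * (B.card * (B.card : ℝ) ^ ρ) * c ^ ρ := by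
              refine mul_le_mul_of_nonneg_right ?_ (by positivity)
              exact mul_le_mul_of_nonneg_right hSc (by positivity)
          _ = B.card * X ^ ρ := by
              rw [hX, mul_pow, mul_pow]
              ring
      linarith)
  refine ⟨e, Pool.Agent.H27.SYM.partite_inj he, fun y hy1 hy2 => ?_, fun u₀ hu T hT hTB => ?_⟩
  · refine heB y ?_
    rw [hY, hQ, mem_filter, mem_filter]
    exact ⟨⟨mem_univ _, hy2⟩, hy1⟩
  · by_contra hcon
    push Not at hcon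
    obtain ⟨j, hj⟩ := heT T (by
      rw [hS, mem_filter, Fintype.mem_piFinset]
      refine ⟨fun j => ?_, hcon⟩
      rw [hQ, mem_filter]
      refine ⟨mem_univ _, (hT j).trans ?_⟩
      exact Nat.mul_le_mul_right _ (by omega)) u₀ hu
    exact hj (hTB j)

end Pool.Agent.H48.LA
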